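import Mathlib

set_option autoImplicit false

namespace Pool.Agent.MP_05b6ce_an

open scoped InnerProductSpace
open Finset

noncomputable section

/-- The Hardy space as square summable sequences. -/
abbrev H : Type := lp (fun _ : ℕ => ℂ) 2

theorem summable_sq (x : H) : Summable fun n => ‖x n‖ ^ 2 := by
  have := (lp.memℓp x).summable (by norm_num)
  simpa using this

theorem norm_sq_eq (x : H) : ‖x‖ ^ 2 = ∑' n, ‖x n‖ ^ 2 := by
  have := lp.norm_rpow_eq_tsum (p := 2) (by norm_num) x
  simpa using this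

/-- An element of `H` from a square summable sequence. -/
def mk (g : ℕ → ℂ) (hg : Summable fun n => ‖g n‖ ^ 2) : H :=
  ⟨g, memℓp_gen (by simpa using hg)⟩

@[simp] theorem mk_apply (g : ℕ → ℂ) (hg : Summable fun n => ‖g n‖ ^ 2) (n : ℕ) :
    mk g hg n = g n := rfl

/-- shift of a sequence -/
def sh (x : ℕ → ℂ) : ℕ → ℂ
  | 0 => 0
  | n + 1 => x n

theorem summable_sh (x : H) : Summable fun n => ‖sh x n‖ ^ 2 := by
  rw [← summable_nat_add_iff 1]
  simpa [sh] using summable_sq x

/-- The unilateral shift as a linear isometry. -/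
def SI : H →ₗᵢ[ℂ] H where
  toFun x := mk (sh x) (summable_sh x)
  map_add' x y := by
    apply lp.ext
    funext n
    cases n <;> simp [sh]
  map_smul' c x := by
    apply lp.ext
    funext n
    cases n <;> simp [sh]
  norm_map' x := by
    have h1 : ‖mk (sh x) (summable_sh x)‖ ^ 2 = ‖x‖ ^ 2 := by
      rw [norm_sq_eq, norm_sq_eq]
      simp only [mk_apply]
      rw [(summable_sh x).tsum_eq_zero_add]
      simp [sh]
    exact (pow_left_inj₀ (norm_nonneg _) (norm_nonneg _) two_ne_zero).1 h1

/-- The unilateral shift as a bounded operator. -/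
def S : H →L[ℂ] H := SI.toContinuousLinearMap

theorem mul_ap (A B : H →L[ℂ] H) (x : H) : (A * B) x = A (B x) := rfl

@[simp] theorem S_zero (x : H) : S x 0 = 0 := rfl
@[simp] theorem S_succ (x : H) (n : ℕ) : S x (n + 1) = x n := rfl
@[simp] theorem norm_S (x : H) : ‖S x‖ = ‖x‖ := SI.norm_map x
theorem inner_S (x y : H) : ⟪S x, S y⟫_ℂ = ⟪x, y⟫_ℂ := SI.inner_map_map x y

theorem S_pow_apply (j : ℕ) (x : H) (n : ℕ) :
    (S ^ j) x n = if j ≤ n then x (n - j) else 0 := by
  induction j generalizing n with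
  | zero => simp
  | succ j ih =>
    rw [pow_succ', mul_ap]
    cases n with
    | zero => simp
    | succ n => rw [S_succ, ih]; simp

@[simp] theorem norm_S_pow (j : ℕ) (x : H) : ‖(S ^ j) x‖ = ‖x‖ := by
  induction j with
  | zero => simp
  | succ j ih => rw [pow_succ', mul_ap, norm_S, ih]

/-- backward shift -/
def back (x : H) : H :=
  mk (fun n => x (n + 1)) ((summable_nat_add_iff (f := fun n => ‖x n‖ ^ 2) 1).2 (summable_sq x))

@[simp] theorem back_apply (x : H) (n : ℕ) : back x n = x (n + 1) := rfl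

theorem S_back (x : H) (h : x 0 = 0) : S (back x) = x := by
  apply lp.ext
  funext n
  cases n with
  | zero => simp [h]
  | succ n => simp

/-- the constant function one -/
def e0 : H := lp.single 2 0 1

theorem e0_apply (n : ℕ) : e0 n = if n = 0 then 1 else 0 := by
  unfold e0
  rw [lp.single_apply]
  by_cases h : n = 0
  · subst h; simp
  · simp [h]

@[simp] theorem norm_e0 : ‖e0‖ = 1 := by
  unfold e0
  rw [lp.norm_single (by norm_num)]
  simp

theorem inner_e0_left (x : H) : ⟪e0, x⟫_ℂ = x 0 := by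
  unfold e0
  rw [lp.inner_single_left]
  simp

/-- evaluation -/
def ev (n : ℕ) : H →L[ℂ] ℂ := lp.evalCLM ℂ (fun _ : ℕ => ℂ) 2 n

@[simp] theorem ev_apply (n : ℕ) (x : H) : ev n x = x n := rfl

/-- Cauchy product -/
def conv (a g : ℕ → ℂ) (n : ℕ) : ℂ := ∑ k ∈ range (n + 1), a k * g (n - k)

theorem conv_comm (a g : ℕ → ℂ) : conv a g = conv g a := by
  funext n
  unfold conv
  rw [← Finset.sum_range_reflect]
  refine Finset.sum_congr rfl fun k hk => ?_
  have hk' : k ≤ n := Nat.lt_succ_iff.1 (Finset.mem_range.1 hk)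
  simp only [Nat.add_sub_cancel]
  rw [Nat.sub_sub_self hk', mul_comm]

theorem conv_succ (a g : ℕ → ℂ) (n : ℕ) :
    conv a g (n + 1) = a 0 * g (n + 1) + conv (fun k => a (k + 1)) g n := by
  unfold conv
  rw [Finset.sum_range_succ', add_comm]
  simp

/-- An operator commuting with the shift is a multiplication operator. -/
theorem apply_eq_conv (T : H →L[ℂ] H) (hT : Commute T S) (v : H) (n : ℕ) :
    T v n = conv v (T e0) n := by
  induction n generalizing v with
  | zero =>
    have h0 : (v - v 0 • e0 : H) 0 = 0 := by simp [e0_apply]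
    have h1 : v = v 0 • e0 + S (back (v - v 0 • e0)) := by rw [S_back _ h0]; abel
    have h2 : T (S (back (v - v 0 • e0))) = S (T (back (v - v 0 • e0))) := by
      rw [← mul_ap, hT.eq, mul_ap]
    conv_lhs => rw [h1, map_add, h2, map_smul]
    simp [conv]
  | succ n ih =>
    have h0 : (v - v 0 • e0 : H) 0 = 0 := by simp [e0_apply]
    have h1 : v = v 0 • e0 + S (back (v - v 0 • e0)) := by rw [S_back _ h0]; abel
    have h2 : T (S (back (v - v 0 • e0))) = S (T (back (v - v 0 • e0))) := by
      rw [← mul_ap, hT.eq, mul_ap]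
    conv_lhs => rw [h1, map_add, h2, map_smul]
    rw [conv_succ]
    simp only [lp.coeFn_add, lp.coeFn_smul, Pi.add_apply, Pi.smul_apply, smul_eq_mul, S_succ, ih]
    congr 2
    funext k
    simp [e0_apply]

end

end Pool.Agent.MP_05b6ce_an
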