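import Pool.Agent.MP_05b6ce_an.Mult

set_option autoImplicit false

namespace Pool.Agent.MP_05b6ce_an

open scoped InnerProductSpace
open Finset Filter Topology

noncomputable section

/-- finite arithmetic progression -/
def cs (n L N : ℕ) : Finset ℕ := (range N).image fun k => n + L * k

/-- multiplication by the comb supported on the progression -/
def comb (n L N : ℕ) : H →L[ℂ] H := S ^ n * ∑ k ∈ range N, (S ^ L) ^ k

theorem bi_comb (n L N : ℕ) : Bi (comb n L N) := (bi_S.pow n).mul ((bi_S.pow L).geom N)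

theorem cs_inj (n L : ℕ) (hL : 0 < L) : Function.Injective fun k => n + L * k := by
  intro a b h
  simp only [add_right_inj] at h
  exact Nat.eq_of_mul_eq_mul_left hL h

theorem card_cs (n L N : ℕ) (hL : 0 < L) : (cs n L N).card = N := by
  rw [cs, Finset.card_image_of_injective _ (cs_inj n L hL), card_range]

theorem mem_cs {n L N t : ℕ} : t ∈ cs n L N ↔ ∃ k < N, t = n + L * k := by
  simp [cs, eq_comm]

theorem S_pow_e0 (a t : ℕ) : (S ^ a) e0 t = if t = a then 1 else 0 := by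
  rw [S_pow_apply, e0_apply]
  split_ifs <;> first | rfl | omega

theorem comb_e0 (n L N : ℕ) (hL : 0 < L) (t : ℕ) :
    comb n L N e0 t = if t ∈ cs n L N then 1 else 0 := by
  have h1 : comb n L N = ∑ k ∈ range N, S ^ (n + L * k) := by
    rw [comb, Finset.mul_sum]
    exact Finset.sum_congr rfl fun k _ => by rw [← pow_mul, pow_add]
  have h2 : comb n L N e0 t = ∑ k ∈ range N, (S ^ (n + L * k)) e0 t := by
    rw [h1, ContinuousLinearMap.sum_apply, lp.coeFn_sum, Finset.sum_apply]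
  rw [h2]
  simp only [S_pow_e0]
  rw [← Finset.sum_ite_eq (cs n L N) t (fun _ => (1 : ℂ)), cs,
    Finset.sum_image fun a _ b _ h => cs_inj n L hL h]

theorem norm_comb_sq (n L N : ℕ) (hL : 0 < L) : ‖comb n L N e0‖ ^ 2 = N := by
  rw [norm_sq_eq, tsum_eq_sum (s := cs n L N)]
  · rw [Finset.sum_congr rfl (g := fun _ => (1 : ℝ))]
    · simp [card_cs _ _ _ hL]
    · intro t ht
      rw [comb_e0 _ _ _ hL, if_pos ht]; simp
  · intro t ht
    rw [comb_e0 _ _ _ hL, if_neg ht]; simp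

theorem norm_comb_A (n L N : ℕ) (C : H →L[ℂ] H) :
    ‖comb n L N (((1 - S ^ L) * C) e0)‖ ≤ 2 * ‖C e0‖ := by
  have h1 : comb n L N (((1 - S ^ L) * C) e0) = (S ^ n) (C e0 - ((S ^ L) ^ N) (C e0)) := by
    rw [← mul_ap, comb, mul_assoc, ← mul_assoc (∑ k ∈ range N, (S ^ L) ^ k), geom_sum_mul_neg]
    rfl
  rw [h1, norm_S_pow]
  refine (norm_sub_le _ _).trans ?_
  rw [← pow_mul, norm_S_pow]
  linarith

/-- state of the recursion -/
abbrev St : Type := (H →L[ℂ] H) × H × ℕ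

/-- the amount to be cancelled -/
def tau (j : ℕ) (s : St) : ℂ :=
  -∑ t ∈ range s.2.2, starRingEnd ℂ (s.1 e0 t) * s.2.1 (j + t)

/-- the block length -/
def NN (ε δ : ℕ → ℝ) (j : ℕ) (s : St) : ℕ := ⌈‖tau j s‖ ^ 2 / (ε j * δ j) ^ 2⌉₊ + 1

/-- one step of the recursion -/
def step (ε δ : ℕ → ℝ) (j : ℕ) (s : St) : St :=
  (s.1 + (ε j : ℂ) • comb s.2.2 (j + 1) (NN ε δ j s),
   s.2.1 + (tau j s / (ε j * NN ε δ j s)) • (S ^ j) (comb s.2.2 (j + 1) (NN ε δ j s) e0),
   s.2.2 + j + (j + 1) * NN ε δ j s)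

/-- the recursion -/
def st (ε δ : ℕ → ℝ) : ℕ → St
  | 0 => (1, e0, 1)
  | j + 1 => step ε δ j (st ε δ j)

section
variable (ε δ : ℕ → ℝ)

/-- operator part -/
def Ph (j : ℕ) : H →L[ℂ] H := (st ε δ j).1
/-- function part -/
def Fn (j : ℕ) : H := (st ε δ j).2.1
/-- degree bound -/
def Dg (j : ℕ) : ℕ := (st ε δ j).2.2
/-- block length -/
def Nb (j : ℕ) : ℕ := NN ε δ j (st ε δ j)
/-- block height -/
def hb (j : ℕ) : ℂ := tau j (st ε δ j) / (ε j * Nb ε δ j)
/-- block support -/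
def blk (j : ℕ) : Finset ℕ := cs (Dg ε δ j) (j + 1) (Nb ε δ j)

theorem Ph_succ (j : ℕ) :
    Ph ε δ (j + 1) = Ph ε δ j + (ε j : ℂ) • comb (Dg ε δ j) (j + 1) (Nb ε δ j) := rfl
theorem Fn_succ (j : ℕ) : Fn ε δ (j + 1) =
    Fn ε δ j + hb ε δ j • (S ^ j) (comb (Dg ε δ j) (j + 1) (Nb ε δ j) e0) := rfl
theorem Dg_succ (j : ℕ) : Dg ε δ (j + 1) = Dg ε δ j + j + (j + 1) * Nb ε δ j := rfl
theorem Nb_pos (j : ℕ) : 0 < Nb ε δ j := Nat.succ_pos _

theorem Ph_succ_apply (j t : ℕ) :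
    Ph ε δ (j + 1) e0 t = Ph ε δ j e0 t + if t ∈ blk ε δ j then (ε j : ℂ) else 0 := by
  rw [Ph_succ, ContinuousLinearMap.add_apply, ContinuousLinearMap.smul_apply]
  simp only [lp.coeFn_add, lp.coeFn_smul, Pi.add_apply, Pi.smul_apply, smul_eq_mul,
    comb_e0 _ _ _ (Nat.succ_pos j), blk]
  split_ifs <;> simp

theorem Fn_succ_apply (j t : ℕ) :
    Fn ε δ (j + 1) t = Fn ε δ j t + if j ≤ t ∧ t - j ∈ blk ε δ j then hb ε δ j else 0 := by
  rw [Fn_succ]
  simp only [lp.coeFn_add, lp.coeFn_smul, Pi.add_apply, Pi.smul_apply, smul_eq_mul, S_pow_apply,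
    comb_e0 _ _ _ (Nat.succ_pos j), blk]
  by_cases h1 : j ≤ t <;> by_cases h2 : t - j ∈ cs (Dg ε δ j) (j + 1) (Nb ε δ j) <;> simp [h1, h2]

theorem blk_bounds {j t : ℕ} (h : t ∈ blk ε δ j) :
    Dg ε δ j ≤ t ∧ t + j + (j + 1) ≤ Dg ε δ (j + 1) := by
  obtain ⟨k, hk, rfl⟩ := mem_cs.1 h
  rw [Dg_succ]
  have : (j + 1) * (k + 1) ≤ (j + 1) * Nb ε δ j := Nat.mul_le_mul_left _ hk
  constructor
  · omega
  · nlinarith

theorem Dg_lt_succ (j : ℕ) : Dg ε δ j + j + (j + 1) ≤ Dg ε δ (j + 1) := by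
  rw [Dg_succ]
  have : (j + 1) * 1 ≤ (j + 1) * Nb ε δ j := Nat.mul_le_mul_left _ (Nb_pos ε δ j)
  omega

theorem Dg_mono : Monotone (Dg ε δ) :=
  monotone_nat_of_le_succ fun j => by have := Dg_lt_succ ε δ j; omega

theorem lt_Dg (j : ℕ) : j < Dg ε δ j := by
  induction j with
  | zero => exact Nat.one_pos
  | succ j ih => have := Dg_lt_succ ε δ j; omega

theorem bi_Ph (j : ℕ) : Bi (Ph ε δ j) := by
  induction j with
  | zero => exact bi_one
  | succ j ih => exact ih.add ((bi_comb _ _ _).smul _)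

theorem supp (j t : ℕ) (h : Dg ε δ j ≤ t) : Ph ε δ j e0 t = 0 ∧ Fn ε δ j t = 0 := by
  induction j with
  | zero =>
    have h1 : 1 ≤ t := h
    have h2 : e0 t = 0 := by rw [e0_apply, if_neg (by omega)]
    exact ⟨h2, h2⟩
  | succ j ih =>
    have h1 := Dg_lt_succ ε δ j
    obtain ⟨h2, h3⟩ := ih (by omega)
    rw [Ph_succ_apply, Fn_succ_apply, h2, h3, if_neg, if_neg]
    · simp
    · rintro ⟨h4, h5⟩
      have := blk_bounds ε δ h5
      omega
    · intro h5
      have := blk_bounds ε δ h5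
      omega

theorem stab_Ph (j K t : ℕ) (hK : j ≤ K) (ht : t < Dg ε δ j) :
    Ph ε δ K e0 t = Ph ε δ j e0 t := by
  induction K, hK using Nat.le_induction with
  | base => rfl
  | succ K hK ih =>
    rw [Ph_succ_apply, ih, if_neg, add_zero]
    intro h5
    have := blk_bounds ε δ h5
    have := Dg_mono ε δ hK
    omega

theorem stab_Fn (j K t : ℕ) (hK : j ≤ K) (ht : t < Dg ε δ j + j) :
    Fn ε δ K t = Fn ε δ j t := by
  induction K, hK using Nat.le_induction with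
  | base => rfl
  | succ K hK ih =>
    rw [Fn_succ_apply, ih, if_neg, add_zero]
    rintro ⟨h4, h5⟩
    have := blk_bounds ε δ h5
    have := Dg_mono ε δ hK
    omega

theorem norm_block (hε : ∀ j, 0 < ε j) (hδ : ∀ j, 0 < δ j) (j : ℕ) :
    dist (Fn ε δ j) (Fn ε δ (j + 1)) ≤ δ j := by
  rw [dist_comm, dist_eq_norm, Fn_succ, add_sub_cancel_left, norm_smul, norm_S_pow]
  refine (pow_le_pow_iff_left₀ (by positivity) (hδ j).le two_ne_zero).1 ?_
  have hN : (0 : ℝ) < Nb ε δ j := by exact_mod_cast Nb_pos ε δ j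
  have he := hε j
  have hd := hδ j
  rw [mul_pow, norm_comb_sq _ _ _ (Nat.succ_pos j), hb, norm_div, norm_mul, Complex.norm_real,
    Complex.norm_natCast, Real.norm_eq_abs, abs_of_pos he]
  have h1 : ‖tau j (st ε δ j)‖ ^ 2 / (ε j * δ j) ^ 2 ≤ Nb ε δ j := by
    refine (Nat.le_ceil _).trans ?_
    rw [Nb, NN]
    push_cast
    linarith
  rw [div_le_iff₀ (by positivity)] at h1
  rw [div_pow, div_mul_eq_mul_div, div_le_iff₀ (by positivity)]
  calc ‖tau j (st ε δ j)‖ ^ 2 * (Nb ε δ j : ℝ)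
      ≤ (Nb ε δ j * (ε j * δ j) ^ 2) * (Nb ε δ j : ℝ) := by gcongr
    _ = δ j ^ 2 * (ε j * Nb ε δ j) ^ 2 := by ring

theorem cancel (hε : ∀ j, 0 < ε j) (m : ℕ) :
    ∑ t ∈ range (Dg ε δ (m + 1)),
      starRingEnd ℂ (Ph ε δ (m + 1) e0 t) * Fn ε δ (m + 1) (m + t) = 0 := by
  have h1 : ∀ t, starRingEnd ℂ (Ph ε δ (m + 1) e0 t) * Fn ε δ (m + 1) (m + t) =
      (if t ∈ range (Dg ε δ m) then starRingEnd ℂ (Ph ε δ m e0 t) * Fn ε δ m (m + t) else 0) +
      if t ∈ blk ε δ m then (ε m : ℂ) * hb ε δ m else 0 := by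
    intro t
    rw [Ph_succ_apply, Fn_succ_apply]
    simp only [Nat.le_add_right, Nat.add_sub_cancel_left, true_and, mem_range]
    by_cases h2 : t < Dg ε δ m
    · have h3 : t ∉ blk ε δ m := fun h5 => by have := blk_bounds ε δ h5; omega
      simp [h2, h3]
    · rw [(supp ε δ m t (by omega)).1, (supp ε δ m (m + t) (by omega)).2]
      by_cases h3 : t ∈ blk ε δ m <;> simp [h2, h3]
  simp only [h1]
  rw [Finset.sum_add_distrib, Finset.sum_ite_mem, Finset.sum_ite_mem,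
    Finset.inter_eq_right.2, Finset.inter_eq_right.2]
  · rw [Finset.sum_const, blk, card_cs _ _ _ (Nat.succ_pos m), hb, nsmul_eq_mul]
    have hN : ((Nb ε δ m : ℕ) : ℂ) ≠ 0 := by exact_mod_cast (Nb_pos ε δ m).ne'
    have he : (ε m : ℂ) ≠ 0 := by exact_mod_cast (hε m).ne'
    have h2 : (Nb ε δ m : ℂ) * ((ε m : ℂ) * (tau m (st ε δ m) / (ε m * Nb ε δ m)))
        = tau m (st ε δ m) := by field_simp
    rw [h2, tau]
    exact add_neg_cancel _
  · intro t ht
    have := blk_bounds ε δ ht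
    exact mem_range.2 (by omega)
  · exact Finset.range_subset_range.2 (Dg_mono ε δ (Nat.le_succ m))

theorem term_zero (m j t : ℕ) (hj : m < j) (h1 : Dg ε δ j ≤ t) :
    starRingEnd ℂ (Ph ε δ (j + 1) e0 t) * Fn ε δ (j + 1) (m + t) = 0 := by
  rw [Ph_succ_apply, Fn_succ_apply, (supp ε δ j t h1).1, (supp ε δ j (m + t) (by omega)).2]
  by_cases h3 : t ∈ blk ε δ j
  · rw [if_neg (c := j ≤ m + t ∧ m + t - j ∈ blk ε δ j)]
    · simp
    · rintro ⟨h4, h5⟩
      obtain ⟨k, -, hk⟩ := mem_cs.1 h3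
      obtain ⟨k', -, hk'⟩ := mem_cs.1 h5
      have h6 : m + (j + 1) * k = j + (j + 1) * k' := by omega
      have h7 := congrArg (· % (j + 1)) h6
      simp only [Nat.add_mul_mod_self_left] at h7
      rw [Nat.mod_eq_of_lt (by omega), Nat.mod_eq_of_lt (by omega)] at h7
      omega
  · simp [h3]

end

theorem exists_phi : ∃ (φ : ℕ → ℂ) (f : H), ‖f - e0‖ ≤ 1 / 8 ∧
    (∀ m, ∃ D, ∀ N, D ≤ N → ∑ n ∈ range N, starRingEnd ℂ (φ n) * f (m + n) = 0) ∧
    (∀ η > 0, ∃ v w : H, (∀ n, w n = conv v φ n) ∧ ‖v - e0‖ ≤ η) ∧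
    (∃ v w : H, (∀ n, w n = conv v φ n) ∧ ‖w - e0‖ ≤ 1 / 4) := by
  set δ : ℕ → ℝ := fun j => 1 / 8 / 2 / 2 ^ j with hδdef
  have hδ : ∀ j, 0 < δ j := fun j => by positivity
  choose A C hA hC hAC hAc hAe using fun j => exists_A (j + 1) (Nat.succ_pos j) (δ j) (hδ j)
  set ε : ℕ → ℝ := fun j => δ j / (2 * ‖C j e0‖ + 1) with hεdef
  have hε : ∀ j, 0 < ε j := fun j => by have := hδ j; positivity
  set φ : ℕ → ℂ := fun t => Ph ε δ (t + 1) e0 t with hφ
  have hφK : ∀ K t, t < Dg ε δ K → φ t = Ph ε δ K e0 t := by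
    intro K t ht
    have h1 := lt_Dg ε δ (t + 1)
    rw [← stab_Ph ε δ K (max K (t + 1)) t (le_max_left _ _) ht,
      stab_Ph ε δ (t + 1) (max K (t + 1)) t (le_max_right _ _) (by omega)]
  obtain ⟨f, hf⟩ := cauchySeq_tendsto_of_complete
    (cauchySeq_of_le_geometric_two (norm_block ε δ hε hδ))
  have hfK : ∀ K t, t < Dg ε δ K + K → f t = Fn ε δ K t := by
    intro K t ht
    have h1 : Tendsto (fun j => Fn ε δ j t) atTop (𝓝 (f t)) := ((ev t).continuous.tendsto f).comp hf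
    refine tendsto_nhds_unique h1 (tendsto_const_nhds.congr' ?_)
    filter_upwards [eventually_ge_atTop K] with j hj
    exact (stab_Fn ε δ K j t hj ht).symm
  have hvw : ∀ J, ∃ v w : H, (∀ n, w n = conv v φ n) ∧ ‖v - e0‖ ≤ 1 / 8 / 2 ^ J ∧
      ‖w - Ph ε δ J v‖ ≤ 1 / 8 / 2 ^ J := by
    intro J
    obtain ⟨v, hv, hT⟩ := exists_prod A hA hAc (1 / 8) hAe J
    have h3 : ∀ K, dist (Ph ε δ (J + K) v) (Ph ε δ (J + (K + 1)) v)
        ≤ 1 / 8 / 2 ^ J / 2 / 2 ^ K := by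
      intro K
      rw [dist_comm, dist_eq_norm, ← add_assoc, Ph_succ, ContinuousLinearMap.add_apply,
        add_sub_cancel_left, ContinuousLinearMap.smul_apply, norm_smul, Complex.norm_real,
        Real.norm_eq_abs, abs_of_pos (hε _)]
      have h4 := hT (J + K) (Nat.le_add_right _ _) _
        (bi_comb (Dg ε δ (J + K)) (J + K + 1) (Nb ε δ (J + K)))
      rw [hAC] at h4
      have h5 := h4.trans (norm_comb_A _ _ _ _)
      have h6 : ε (J + K) * (2 * ‖C (J + K) e0‖) ≤ δ (J + K) := by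
        simp only [hεdef]
        rw [div_mul_eq_mul_div, div_le_iff₀ (by positivity)]
        have := hδ (J + K)
        nlinarith
      have h7 : δ (J + K) = 1 / 8 / 2 ^ J / 2 / 2 ^ K := by
        simp only [hδdef]
        rw [pow_add]; field_simp
      rw [← h7]
      exact (mul_le_mul_of_nonneg_left h5 (hε _).le).trans h6
    obtain ⟨w, hw⟩ := cauchySeq_tendsto_of_complete (cauchySeq_of_le_geometric_two h3)
    refine ⟨v, w, fun n => ?_, hv, ?_⟩
    · have h1 : Tendsto (fun K => Ph ε δ (J + K) v n) atTop (𝓝 (w n)) :=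
        ((ev n).continuous.tendsto w).comp hw
      refine tendsto_nhds_unique h1 (tendsto_const_nhds.congr' ?_)
      filter_upwards [eventually_ge_atTop n] with K hK
      rw [apply_eq_conv _ (bi_Ph ε δ _).commute_S]
      refine Finset.sum_congr rfl fun k _ => ?_
      have := lt_Dg ε δ (J + K)
      rw [hφK (J + K) (n - k) (by omega)]
    · have := dist_le_of_le_geometric_two_of_tendsto₀ h3 hw
      rwa [dist_comm, dist_eq_norm] at this
  refine ⟨φ, f, ?_, fun m => ⟨Dg ε δ (m + 1), fun N hN => ?_⟩, fun η hη => ?_, ?_⟩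
  · have := dist_le_of_le_geometric_two_of_tendsto₀ (norm_block ε δ hε hδ) hf
    rwa [dist_comm, dist_eq_norm] at this
  · induction N, hN using Nat.le_induction with
    | base =>
      rw [← cancel ε δ hε m]
      refine Finset.sum_congr rfl fun t ht => ?_
      have := mem_range.1 ht
      rw [hφK (m + 1) t this, hfK (m + 1) (m + t) (by omega)]
    | succ N hN ih =>
      rw [Finset.sum_range_succ, ih, zero_add]
      have hex : ∃ j, N < Dg ε δ (j + 1) := ⟨N, by have := lt_Dg ε δ (N + 1); omega⟩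
      have h1 := Nat.find_spec hex
      set j := Nat.find hex with hj
      have h2 : m < j := by
        by_contra h
        have := Dg_mono ε δ (show j + 1 ≤ m + 1 by omega)
        omega
      have h3 : Dg ε δ j ≤ N := by
        have h4 := Nat.find_min hex (m := j - 1) (by omega)
        rw [show j - 1 + 1 = j by omega] at h4
        omega
      rw [hφK (j + 1) N h1, hfK (j + 1) (m + N) (by omega)]
      exact term_zero ε δ m j N h2 h3
  · obtain ⟨J, hJ⟩ := exists_pow_lt_of_lt_one hη (show (1 / 2 : ℝ) < 1 by norm_num)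
    obtain ⟨v, w, h1, h2, -⟩ := hvw J
    refine ⟨v, w, h1, h2.trans ?_⟩
    rw [one_div_pow] at hJ
    refine le_trans ?_ hJ.le
    gcongr
    norm_num
  · obtain ⟨v, w, h1, h2, h3⟩ := hvw 0
    refine ⟨v, w, h1, ?_⟩
    have h4 : Ph ε δ 0 v = v := rfl
    rw [h4] at h3
    calc ‖w - e0‖ = ‖(w - v) + (v - e0)‖ := by congr 1; abel
      _ ≤ ‖w - v‖ + ‖v - e0‖ := norm_add_le _ _
      _ ≤ 1 / 4 := by norm_num at h2 h3; linarith

end

end Pool.Agent.MP_05b6ce_an
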