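import Pool.Agent.MP_05b6ce_an.Pair
import Pool.Agent.MP_05b6ce_an.Constr

set_option autoImplicit false

namespace Pool.Agent.MP_05b6ce_an

open scoped InnerProductSpace
open Finset Filter Topology

theorem counterexample :
    ¬ (∀ (a b φ : ℕ → ℂ),
    (∀ g : ℕ → ℂ, Summable (fun n => ‖g n‖ ^ 2) →
      Summable (fun n => ‖∑ k ∈ Finset.range (n+1), a k * g (n-k)‖ ^ 2) ∧
      Summable (fun n => ‖∑ k ∈ Finset.range (n+1), b k * g (n-k)‖ ^ 2) ∧
      (∑' n, ‖∑ k ∈ Finset.range (n+1), a k * g (n-k)‖ ^ 2) +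
        (∑' n, ‖∑ k ∈ Finset.range (n+1), b k * g (n-k)‖ ^ 2) = ∑' n, ‖g n‖ ^ 2) →
    (∀ g : ℕ → ℂ, Summable (fun n => ‖g n‖ ^ 2) →
      (∀ j : ℕ, ∑' n, a n * starRingEnd ℂ (g (n + j)) = 0) → g = 0) →
    0 < (a 0).re → (a 0).im = 0 →
    (∀ n, ∑ k ∈ Finset.range (n+1), a k * φ (n-k) = b n) →
    ∀ f c : ℕ → ℂ, Summable (fun n => ‖f n‖ ^ 2) →
      (∀ m, Filter.Tendsto (fun N => ∑ n ∈ Finset.range N, starRingEnd ℂ (φ n) * f (m+n))
        Filter.atTop (nhds (c m))) →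
      Summable (fun m => ‖c m‖ ^ 2) →
      IsLUB {x : ℝ | ∃ g : ℕ → ℂ, Summable (fun n => ‖g n‖ ^ 2) ∧
          x = (∑' n, ‖f n + ∑ k ∈ Finset.range (n+1), b k * g (n-k)‖ ^ 2) - ∑' n, ‖g n‖ ^ 2}
        ((∑' m, ‖f m‖ ^ 2) + ∑' m, ‖c m‖ ^ 2)) := by
  intro hyp
  obtain ⟨φ, f, hf, hc, hD, v, w, hvw, hw⟩ := exists_phi
  obtain ⟨a, b, hiso, hout, hre, him, hab, hW⟩ := exists_pair φ hD
  have h1 := hyp a b φ ?_ ?_ hre him hab f (fun _ => 0) (summable_sq f) ?_ (by simp)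
  · obtain ⟨g, hg⟩ := hW v w hvw
    set ρ : ℝ := RCLike.re ⟪f, w⟫_ℂ with hρ
    have hρ0 : 0 < ρ := by
      have e1 : ⟪f, w⟫_ℂ = 1 + ⟪f - e0, e0⟫_ℂ + ⟪f, w - e0⟫_ℂ := by
        rw [inner_sub_left, inner_sub_right, inner_self_eq_norm_sq_to_K, norm_e0]
        simp
      have e2 : ‖⟪f - e0, e0⟫_ℂ‖ ≤ 1 / 8 := by
        refine (norm_inner_le_norm _ _).trans ?_
        rw [norm_e0, mul_one]; exact hf
      have e3 : ‖f‖ ≤ 9 / 8 := by
        calc ‖f‖ = ‖(f - e0) + e0‖ := by congr 1; abel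
          _ ≤ ‖f - e0‖ + ‖e0‖ := norm_add_le _ _
          _ ≤ 9 / 8 := by rw [norm_e0]; linarith
      have e4 : ‖⟪f, w - e0⟫_ℂ‖ ≤ 9 / 8 * (1 / 4) := by
        refine (norm_inner_le_norm _ _).trans ?_
        gcongr
      have e5 := abs_le.1 ((RCLike.abs_re_le_norm ⟪f - e0, e0⟫_ℂ).trans e2)
      have e6 := abs_le.1 ((RCLike.abs_re_le_norm ⟪f, w - e0⟫_ℂ).trans e4)
      rw [hρ, e1, map_add, map_add, RCLike.one_re]
      linarith [e5.1, e6.1]
    set t : ℝ := ρ / (‖g‖ ^ 2 + 1) with ht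
    have ht0 : 0 < t := by positivity
    have h2 := h1.1 ⟨((t : ℂ) • g : H), summable_sq _, rfl⟩
    have h3 : ∀ n, f n + ∑ k ∈ Finset.range (n+1), b k * ((t : ℂ) • g : H) (n-k)
        = (f + (t : ℂ) • w : H) n := by
      intro n
      simp only [lp.coeFn_add, lp.coeFn_smul, Pi.add_apply, Pi.smul_apply, smul_eq_mul, hg, conv,
        Finset.mul_sum]
      congr 1
      exact Finset.sum_congr rfl fun k _ => by ring
    simp only [h3] at h2
    rw [← norm_sq_eq, ← norm_sq_eq, ← norm_sq_eq, @norm_add_sq ℂ, inner_smul_right, norm_smul,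
      norm_smul, Complex.norm_real, Real.norm_eq_abs, abs_of_pos ht0] at h2
    have h4 : RCLike.re ((t : ℂ) * ⟪f, w⟫_ℂ) = t * ρ := by
      rw [hρ]; simp
    rw [h4] at h2
    simp only [norm_zero, ne_eq, OfNat.ofNat_ne_zero, not_false_eq_true, zero_pow, tsum_zero,
      add_zero] at h2
    have h5 : t * ‖g‖ ^ 2 ≤ ρ := by
      rw [ht, div_mul_eq_mul_div, div_le_iff₀ (by positivity)]
      nlinarith
    have h6 : (t * ‖g‖) ^ 2 ≤ t * ρ := by
      calc (t * ‖g‖) ^ 2 = t * (t * ‖g‖ ^ 2) := by ring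
        _ ≤ t * ρ := by gcongr
    nlinarith [sq_nonneg (t * ‖w‖), mul_pos ht0 hρ0]
  · intro g hg
    obtain ⟨p, q, hp, hq, hn⟩ := hiso (mk g hg)
    have hp' : ∀ n, ∑ k ∈ Finset.range (n+1), a k * g (n-k) = p n := fun n => (hp n).symm
    have hq' : ∀ n, ∑ k ∈ Finset.range (n+1), b k * g (n-k) = q n := fun n => (hq n).symm
    simp only [hp', hq']
    refine ⟨summable_sq p, summable_sq q, ?_⟩
    rw [← norm_sq_eq, ← norm_sq_eq, hn, norm_sq_eq]
    rfl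
  · intro g hg h
    have h2 : mk g hg = 0 := by
      refine hout _ fun j => ?_
      have h3 := lp.hasSum_inner (𝕜 := ℂ) (mk g hg) ((S ^ j) a)
      have h4 := (hasSum_nat_add_iff' j).2 h3
      have h5 : ∑ i ∈ range j, ⟪mk g hg i, (S ^ j) a i⟫_ℂ = 0 := by
        refine Finset.sum_eq_zero fun i hi => ?_
        rw [S_pow_apply, if_neg (by have := mem_range.1 hi; omega), inner_zero_right]
      rw [h5, sub_zero] at h4
      rw [← h4.tsum_eq, ← h j]
      refine tsum_congr fun n => ?_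
      rw [S_pow_apply, if_pos (by omega)]
      simp
    funext n
    have := congrArg (fun x : H => x n) h2
    simpa using this
  · intro m
    obtain ⟨D, hD⟩ := hc m
    refine tendsto_const_nhds.congr' ?_
    filter_upwards [eventually_ge_atTop D] with N hN
    exact (hD N hN).symm

end Pool.Agent.MP_05b6ce_an
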