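import Pool.Agent.MP_05b6ce_an.Basic

set_option autoImplicit false

namespace Pool.Agent.MP_05b6ce_an

open scoped InnerProductSpace
open Finset Filter Topology

noncomputable section

/-- membership in the bicommutant of the shift -/
def Bi (T : H →L[ℂ] H) : Prop := ∀ X : H →L[ℂ] H, Commute X S → Commute X T

theorem Bi.commute_S {T : H →L[ℂ] H} (h : Bi T) : Commute T S := (h S (Commute.refl S)).symm

theorem Bi.commute {T T' : H →L[ℂ] H} (h : Bi T) (h' : Bi T') : Commute T T' := h' T h.commute_S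

theorem bi_one : Bi 1 := fun X _ => Commute.one_right X
theorem bi_S : Bi S := fun _ h => h
theorem Bi.mul {T T' : H →L[ℂ] H} (h : Bi T) (h' : Bi T') : Bi (T * T') :=
  fun X hX => (h X hX).mul_right (h' X hX)
theorem Bi.add {T T' : H →L[ℂ] H} (h : Bi T) (h' : Bi T') : Bi (T + T') :=
  fun X hX => (h X hX).add_right (h' X hX)
theorem Bi.sub {T T' : H →L[ℂ] H} (h : Bi T) (h' : Bi T') : Bi (T - T') :=
  fun X hX => (h X hX).sub_right (h' X hX)
theorem Bi.smul {T : H →L[ℂ] H} (h : Bi T) (c : ℂ) : Bi (c • T) :=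
  fun X hX => (h X hX).smul_right c
theorem Bi.pow {T : H →L[ℂ] H} (h : Bi T) (n : ℕ) : Bi (T ^ n) :=
  fun X hX => (h X hX).pow_right n
theorem Bi.geom {T : H →L[ℂ] H} (h : Bi T) (n : ℕ) : Bi (∑ k ∈ range n, T ^ k) :=
  fun X hX => Commute.sum_right _ _ _ fun k _ => (h X hX).pow_right k

theorem exists_A (L : ℕ) (hL : 0 < L) (δ : ℝ) (hδ : 0 < δ) :
    ∃ A C : H →L[ℂ] H, Bi A ∧ Bi C ∧ A = (1 - S ^ L) * C ∧ (∀ x, ‖A x‖ ≤ ‖x‖) ∧
      ‖A e0 - e0‖ ≤ δ := by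
  set s : ℝ := min (δ / 2) (1 / 2) with hs
  have hs0 : 0 < s := lt_min (by positivity) (by norm_num)
  have hs1 : s ≤ δ / 2 := min_le_left _ _
  have hs2 : s ≤ 1 / 2 := min_le_right _ _
  set r : ℝ := 1 - s ^ 2 with hr
  have hr0 : 0 < r := by nlinarith
  have hr1 : r < 1 := by nlinarith
  set U : H →L[ℂ] H := S ^ L with hU
  have hUn : ∀ x, ‖U x‖ = ‖x‖ := norm_S_pow L
  have hU1 : ‖U‖ ≤ 1 := U.opNorm_le_bound zero_le_one fun x => by rw [hUn, one_mul]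
  have hrU : ‖(r : ℂ) • U‖ < 1 := by
    rw [norm_smul, Complex.norm_real, Real.norm_eq_abs, abs_of_pos hr0]
    nlinarith [norm_nonneg U]
  set u := Units.oneSub ((r : ℂ) • U) hrU with hu
  have huv : (u : H →L[ℂ] H) = 1 - (r : ℂ) • U := rfl
  set B : H →L[ℂ] H := ((u⁻¹ : (H →L[ℂ] H)ˣ) : H →L[ℂ] H) with hB
  have hbiU : Bi U := bi_S.pow L
  have hbiB : Bi B := fun X hX => by
    have : Commute X (u : H →L[ℂ] H) := by
      rw [huv]; exact (bi_one.sub (hbiU.smul _)) X hX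
    exact this.units_inv_right
  have hBx : ∀ x, B x - (r : ℂ) • U (B x) = x := fun x => by
    have h1 : ((u : H →L[ℂ] H) * B) x = x := by rw [hB, u.mul_inv]; rfl
    rw [huv, mul_ap] at h1
    exact h1
  set c : ℝ := (1 + r) / 2 with hc
  have hc0 : 0 < c := by positivity
  have hc1 : c ≤ 1 := by linarith
  have hAx : ∀ x, ((1 - U) * ((c : ℂ) • B)) x = (c : ℂ) • (B x - U (B x)) := fun x => by
    rw [mul_ap, smul_sub, ← map_smul U]; rfl
  refine ⟨(1 - U) * ((c : ℂ) • B), (c : ℂ) • B, (bi_one.sub hbiU).mul (hbiB.smul _),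
    hbiB.smul _, rfl, fun x => ?_, ?_⟩
  · rw [hAx]
    set y := B x with hy
    have hx : x = y - (r : ℂ) • U y := (hBx x).symm
    have h1 : ‖y - U y‖ ^ 2 = ‖y‖ ^ 2 - 2 * RCLike.re ⟪y, U y⟫_ℂ + ‖y‖ ^ 2 := by
      rw [@norm_sub_sq ℂ, hUn]
    have h2 : ‖x‖ ^ 2 = ‖y‖ ^ 2 - 2 * (r * RCLike.re ⟪y, U y⟫_ℂ) + r ^ 2 * ‖y‖ ^ 2 := by
      rw [hx, @norm_sub_sq ℂ, inner_smul_right, norm_smul, hUn, Complex.norm_real,
        Real.norm_eq_abs, abs_of_pos hr0]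
      simp [mul_pow]
    have h3 : -(‖y‖ ^ 2) ≤ RCLike.re ⟪y, U y⟫_ℂ := by
      have := abs_le.1 ((RCLike.abs_re_le_norm ⟪y, U y⟫_ℂ).trans (norm_inner_le_norm (𝕜 := ℂ) y (U y)))
      rw [hUn] at this
      nlinarith [this.1]
    rw [norm_smul, Complex.norm_real, Real.norm_eq_abs, abs_of_pos hc0]
    refine (pow_le_pow_iff_left₀ (by positivity) (norm_nonneg _) two_ne_zero).1 ?_
    rw [mul_pow, h1, h2, hc]
    nlinarith [mul_nonneg (sq_nonneg (1 - r)) (by linarith : 0 ≤ RCLike.re ⟪y, U y⟫_ℂ + ‖y‖ ^ 2)]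
  · rw [hAx]
    set y := B e0 with hy
    have hx : y = e0 + (r : ℂ) • U y := by rw [← hBx e0]; abel
    have h0 : ⟪e0, (r : ℂ) • U y⟫_ℂ = 0 := by
      rw [inner_smul_right, inner_e0_left, hU, S_pow_apply, if_neg (by omega), mul_zero]
    have h1 : ‖y‖ ^ 2 = 1 + r ^ 2 * ‖y‖ ^ 2 := by
      conv_lhs => rw [hx]
      rw [@norm_add_sq ℂ, h0, norm_e0, norm_smul, hUn, Complex.norm_real,
        Real.norm_eq_abs, abs_of_pos hr0]
      simp [mul_pow]
    have h2 : (c : ℂ) • (y - U y) - e0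
        = ((c - 1 : ℝ) : ℂ) • e0 - ((c * s ^ 2 : ℝ) : ℂ) • U y := by
      have h3 : y - U y = e0 - ((s ^ 2 : ℝ) : ℂ) • U y := by
        have : ((s ^ 2 : ℝ) : ℂ) = 1 - (r : ℂ) := by rw [hr]; push_cast; ring
        rw [this, sub_smul, one_smul]
        nth_rewrite 1 [hx]
        abel
      rw [h3]
      push_cast
      module
    have h4 : s * ‖y‖ ≤ 1 := by
      refine (pow_le_pow_iff_left₀ (by positivity) zero_le_one two_ne_zero).1 ?_
      have h5 : (1 - r ^ 2) * ‖y‖ ^ 2 = 1 := by linarith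
      have h6 : s ^ 2 ≤ 1 - r ^ 2 := by rw [hr]; nlinarith
      rw [mul_pow]
      nlinarith [sq_nonneg ‖y‖]
    rw [h2]
    refine (norm_sub_le _ _).trans ?_
    rw [norm_smul, norm_smul, norm_e0, hUn, Complex.norm_real, Complex.norm_real,
      Real.norm_eq_abs, Real.norm_eq_abs, abs_of_nonpos (by linarith),
      abs_of_pos (by positivity)]
    have h7 : c * s ^ 2 * ‖y‖ ≤ s := by
      calc c * s ^ 2 * ‖y‖ = c * s * (s * ‖y‖) := by ring
        _ ≤ 1 * s * 1 := by gcongr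
        _ = s := by ring
    have h8 : -(c - 1) ≤ s := by rw [hc, hr]; nlinarith
    linarith

/-- partial products -/
def PP (A : ℕ → H →L[ℂ] H) (J : ℕ) : ℕ → H →L[ℂ] H
  | 0 => 1
  | K + 1 => PP A J K * A (J + K)

theorem exists_prod (A : ℕ → H →L[ℂ] H) (hA : ∀ j, Bi (A j)) (hc : ∀ j x, ‖A j x‖ ≤ ‖x‖)
    (c : ℝ) (hδ : ∀ j, ‖A j e0 - e0‖ ≤ c / 2 / 2 ^ j) (J : ℕ) :
    ∃ v : H, ‖v - e0‖ ≤ c / 2 ^ J ∧ ∀ i, J ≤ i → ∀ T, Bi T → ‖T v‖ ≤ ‖T (A i e0)‖ := by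
  have h1 : ∀ K, Bi (PP A J K) ∧ ∀ x, ‖PP A J K x‖ ≤ ‖x‖ := by
    intro K
    induction K with
    | zero => exact ⟨bi_one, fun x => le_rfl⟩
    | succ K ih => exact ⟨ih.1.mul (hA _), fun x => (ih.2 _).trans (hc _ x)⟩
  have h2 : ∀ t K, t < K → ∃ Q : H →L[ℂ] H, Bi Q ∧ (∀ x, ‖Q x‖ ≤ ‖x‖) ∧
      PP A J K = Q * A (J + t) := by
    intro t K
    induction K with
    | zero => intro h; omega
    | succ K ih =>
      intro h
      rcases Nat.lt_succ_iff_lt_or_eq.1 h with h | h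
      · obtain ⟨Q, hQ, hQc, hQe⟩ := ih h
        refine ⟨Q * A (J + K), hQ.mul (hA _), fun x => (hQc _).trans (hc _ x), ?_⟩
        rw [PP, hQe, mul_assoc, mul_assoc, ((hA _).commute (hA _)).eq]
      · subst h
        exact ⟨_, (h1 t).1, (h1 t).2, rfl⟩
  have h3 : ∀ K, dist (PP A J K e0) (PP A J (K + 1) e0) ≤ c / 2 ^ J / 2 / 2 ^ K := by
    intro K
    rw [dist_comm, dist_eq_norm, PP, mul_ap, ← map_sub]
    refine ((h1 K).2 _).trans ((hδ _).trans (le_of_eq ?_))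
    rw [pow_add]; field_simp
  obtain ⟨v, hv⟩ := cauchySeq_tendsto_of_complete (cauchySeq_of_le_geometric_two h3)
  refine ⟨v, ?_, fun i hi T hT => ?_⟩
  · have := dist_le_of_le_geometric_two_of_tendsto₀ h3 hv
    rwa [dist_comm, dist_eq_norm] at this
  · obtain ⟨t, rfl⟩ := Nat.exists_eq_add_of_le hi
    refine le_of_tendsto ((T.continuous.tendsto v).comp hv).norm ?_
    filter_upwards [eventually_gt_atTop t] with K hK
    obtain ⟨Q, hQ, hQc, hQe⟩ := h2 t K hK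
    simp only [Function.comp]
    rw [hQe, mul_ap, ← mul_ap T Q, (hT.commute hQ).eq, mul_ap]
    exact hQc _

end

end Pool.Agent.MP_05b6ce_an
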