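import Pool.Agent.MP_05b6ce_an.Basic

set_option autoImplicit false

namespace Pool.Agent.MP_05b6ce_an

open scoped InnerProductSpace
open Finset

noncomputable section

/-- pairs of Hardy space elements -/
abbrev E : Type := WithLp 2 (H × H)

/-- the shift on pairs -/
def SE (x : E) : E := WithLp.toLp 2 (S x.fst, S x.snd)

@[simp] theorem SE_fst (x : E) : (SE x).fst = S x.fst := rfl
@[simp] theorem SE_snd (x : E) : (SE x).snd = S x.snd := rfl

theorem inner_E (x y : E) : ⟪x, y⟫_ℂ = ⟪x.fst, y.fst⟫_ℂ + ⟪x.snd, y.snd⟫_ℂ :=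
  WithLp.prod_inner_apply x y

theorem inner_SE (x y : E) : ⟪SE x, SE y⟫_ℂ = ⟪x, y⟫_ℂ := by
  rw [inner_E, inner_E, SE_fst, SE_fst, SE_snd, SE_snd, inner_S, inner_S]

theorem SE_iter_fst (j : ℕ) (x : E) : (SE^[j] x).fst = (S ^ j) x.fst := by
  induction j with
  | zero => simp
  | succ j ih => rw [Function.iterate_succ_apply', SE_fst, ih, pow_succ', mul_ap]

theorem SE_iter_snd (j : ℕ) (x : E) : (SE^[j] x).snd = (S ^ j) x.snd := by
  induction j with
  | zero => simp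
  | succ j ih => rw [Function.iterate_succ_apply', SE_snd, ih, pow_succ', mul_ap]

theorem E_ext {x y : E} (h1 : x.fst = y.fst) (h2 : x.snd = y.snd) : x = y := by
  have : WithLp.ofLp x = WithLp.ofLp y := Prod.ext h1 h2
  exact WithLp.ofLp_injective 2 this

/-- first coordinate evaluation -/
def ev1 (n : ℕ) : E →L[ℂ] ℂ := (ev n).comp (WithLp.fstL 2 ℂ H H)
/-- second coordinate evaluation -/
def ev2 (n : ℕ) : E →L[ℂ] ℂ := (ev n).comp (WithLp.sndL 2 ℂ H H)

@[simp] theorem ev1_apply (n : ℕ) (x : E) : ev1 n x = x.fst n := rfl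
@[simp] theorem ev2_apply (n : ℕ) (x : E) : ev2 n x = x.snd n := rfl

/-- The graph of multiplication by `φ`. -/
def M (φ : ℕ → ℂ) : Submodule ℂ E where
  carrier := {x | ∀ n, x.snd n = conv x.fst φ n}
  add_mem' := by
    intro x y hx hy n
    have h1 := hx n
    have h2 := hy n
    simp only [WithLp.add_snd, WithLp.add_fst, lp.coeFn_add, Pi.add_apply, h1, h2, conv,
      add_mul, Finset.sum_add_distrib]
  zero_mem' := by
    intro n
    simp [conv]
  smul_mem' := by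
    intro c x hx n
    have h1 := hx n
    simp only [WithLp.smul_snd, WithLp.smul_fst, lp.coeFn_smul, Pi.smul_apply, h1, conv,
      smul_eq_mul, Finset.mul_sum, mul_assoc]

theorem mem_M {φ : ℕ → ℂ} {x : E} : x ∈ M φ ↔ ∀ n, x.snd n = conv x.fst φ n := Iff.rfl

theorem isClosed_M (φ : ℕ → ℂ) : IsClosed (M φ : Set E) := by
  have : (M φ : Set E) = ⋂ n, {x : E | ev2 n x = ∑ k ∈ range (n + 1), ev1 k x * φ (n - k)} := by
    ext x
    simp [mem_M, conv]
  rw [this]
  refine isClosed_iInter fun n => isClosed_eq (ev2 n).continuous ?_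
  exact continuous_finsetSum _ fun k _ => (ev1 k).continuous.mul continuous_const

/-- The elements of the graph vanishing at the origin. -/
def M0 (φ : ℕ → ℂ) : Submodule ℂ E := M φ ⊓ LinearMap.ker (ev1 0).toLinearMap

theorem mem_M0 {φ : ℕ → ℂ} {x : E} : x ∈ M0 φ ↔ x ∈ M φ ∧ x.fst 0 = 0 := by
  simp [M0]

theorem isClosed_M0 (φ : ℕ → ℂ) : IsClosed (M0 φ : Set E) := by
  have : (M0 φ : Set E) = (M φ : Set E) ∩ {x : E | ev1 0 x = 0} := by
    ext x
    simp [mem_M0]
  rw [this]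
  exact (isClosed_M φ).inter (isClosed_eq (ev1 0).continuous continuous_const)

theorem SE_mem_M0 {φ : ℕ → ℂ} {x : E} (hx : x ∈ M φ) : SE x ∈ M0 φ := by
  refine mem_M0.2 ⟨fun n => ?_, by simp⟩
  cases n with
  | zero => simp [conv]
  | succ n =>
    rw [conv_succ]
    simp only [SE_snd, SE_fst, S_succ, S_zero, zero_mul, zero_add]
    exact hx n

theorem SE_iter_mem {φ : ℕ → ℂ} {x : E} (hx : x ∈ M φ) (j : ℕ) : SE^[j] x ∈ M φ := by
  induction j with
  | zero => simpa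
  | succ j ih => rw [Function.iterate_succ_apply']; exact (mem_M0.1 (SE_mem_M0 ih)).1

theorem exists_back {φ : ℕ → ℂ} {x : E} (hx : x ∈ M0 φ) :
    ∃ y ∈ M φ, SE y = x ∧ ∀ n, y.fst n = x.fst (n + 1) := by
  obtain ⟨h1, h2⟩ := mem_M0.1 hx
  have h3 : x.snd 0 = 0 := by
    rw [h1 0]; simp [conv, h2]
  refine ⟨WithLp.toLp 2 (back x.fst, back x.snd), fun n => ?_, ?_, fun n => rfl⟩
  · have := h1 (n + 1)
    rw [conv_succ, h2, zero_mul, zero_add] at this
    exact this
  · apply E_ext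
    · exact S_back _ h2
    · exact S_back _ h3

theorem exists_wandering (φ : ℕ → ℂ) (x0 : E) (hx0 : x0 ∈ M φ) (h0 : x0.fst 0 ≠ 0) :
    ∃ k ∈ M φ, ‖k‖ = 1 ∧ (∀ y ∈ M0 φ, ⟪k, y⟫_ℂ = 0) ∧ 0 < (k.fst 0).re ∧ (k.fst 0).im = 0 := by
  haveI : CompleteSpace (M0 φ) := (isClosed_M0 φ).completeSpace_coe
  obtain ⟨w, hw, hu⟩ := Submodule.HasOrthogonalProjection.exists_orthogonal (K := M0 φ) x0
  set u := x0 - w with hudef
  have huM : u ∈ M φ := (M φ).sub_mem hx0 (mem_M0.1 hw).1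
  have hu0 : u.fst 0 = x0.fst 0 := by
    simp [hudef, (mem_M0.1 hw).2]
  have hune : u ≠ 0 := by
    intro h
    rw [h] at hu0
    simp at hu0
    exact h0 hu0.symm
  have hnu : 0 < ‖u‖ := norm_pos_iff.2 hune
  have hnx : 0 < ‖x0.fst 0‖ := norm_pos_iff.2 h0
  set c : ℂ := starRingEnd ℂ (x0.fst 0) / ((‖x0.fst 0‖ * ‖u‖ : ℝ) : ℂ) with hc
  have hk0 : (c • u).fst 0 = ((‖x0.fst 0‖ / ‖u‖ : ℝ) : ℂ) := by
    simp only [WithLp.smul_fst, lp.coeFn_smul, Pi.smul_apply, smul_eq_mul, hu0, hc]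
    rw [div_mul_eq_mul_div, Complex.conj_mul']
    have h1 : ((‖x0.fst 0‖ : ℝ) : ℂ) ≠ 0 := by exact_mod_cast hnx.ne'
    have h2 : ((‖u‖ : ℝ) : ℂ) ≠ 0 := by exact_mod_cast hnu.ne'
    push_cast
    field_simp
  refine ⟨c • u, (M φ).smul_mem c huM, ?_, fun y hy => ?_, ?_, ?_⟩
  · rw [norm_smul, hc, norm_div, Complex.norm_conj, Complex.norm_real, Real.norm_eq_abs,
      abs_of_pos (mul_pos hnx hnu)]
    field_simp
  · rw [inner_smul_left, Submodule.inner_left_of_mem_orthogonal hy hu, mul_zero]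
  · rw [hk0, Complex.ofReal_re]; positivity
  · rw [hk0, Complex.ofReal_im]

theorem orthonormal_wandering {φ : ℕ → ℂ} {k : E} (hk : k ∈ M φ) (hn : ‖k‖ = 1)
    (ho : ∀ y ∈ M0 φ, ⟪k, y⟫_ℂ = 0) : Orthonormal ℂ fun j : ℕ => SE^[j] k := by
  rw [orthonormal_iff_ite]
  intro i
  induction i with
  | zero =>
    intro j
    cases j with
    | zero => simp [hn]
    | succ j =>
      rw [Function.iterate_succ_apply', Function.iterate_zero_apply,
        ho _ (SE_mem_M0 (SE_iter_mem hk j))]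
      simp
  | succ i ih =>
    intro j
    cases j with
    | zero =>
      rw [Function.iterate_succ_apply', Function.iterate_zero_apply, ← inner_conj_symm,
        ho _ (SE_mem_M0 (SE_iter_mem hk i))]
      simp
    | succ j =>
      rw [Function.iterate_succ_apply', Function.iterate_succ_apply', inner_SE, ih j]
      simp

theorem wold {φ : ℕ → ℂ} {k : E} (hk : k ∈ M φ) (hn : ‖k‖ = 1)
    (ho : ∀ y ∈ M0 φ, ⟪k, y⟫_ℂ = 0) (hk0 : k.fst 0 ≠ 0) (x : E) (hx : x ∈ M φ)
    (hxo : ∀ j, ⟪SE^[j] k, x⟫_ℂ = 0) : x = 0 := by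
  have step0 : ∀ x ∈ M φ, ⟪k, x⟫_ℂ = 0 → x.fst 0 = 0 := by
    intro x hx h
    have h1 : x - (x.fst 0 / k.fst 0) • k ∈ M0 φ := by
      refine mem_M0.2 ⟨(M φ).sub_mem hx ((M φ).smul_mem _ hk), ?_⟩
      simp only [WithLp.sub_fst, WithLp.smul_fst, lp.coeFn_sub, lp.coeFn_smul, Pi.sub_apply,
        Pi.smul_apply, smul_eq_mul]
      field_simp
      ring
    have h2 := ho _ h1
    rw [inner_sub_right, inner_smul_right, h, inner_self_eq_norm_sq_to_K, hn] at h2
    simpa [hk0] using h2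
  have key : ∀ n, ∀ x ∈ M φ, (∀ j, ⟪SE^[j] k, x⟫_ℂ = 0) → x.fst n = 0 := by
    intro n
    induction n with
    | zero => intro x hx h; exact step0 x hx (h 0)
    | succ n ih =>
      intro x hx h
      obtain ⟨y, hy, hyx, hy1⟩ := exists_back (mem_M0.2 ⟨hx, step0 x hx (h 0)⟩)
      rw [← hy1]
      refine ih y hy fun j => ?_
      rw [← inner_SE, hyx, ← Function.iterate_succ_apply' SE j k]
      exact h (j + 1)
  have h1 : x.fst = 0 := by
    apply lp.ext
    funext n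
    simpa using key n x hx hxo
  apply E_ext
  · simpa using h1
  · apply lp.ext
    funext n
    rw [hx n, h1]
    simp [conv]

theorem tsum_S_pow (g a : H) (n : ℕ) :
    HasSum (fun j => g j * (S ^ j) a n) (conv a g n) := by
  rw [conv_comm]
  unfold conv
  have : ∑ k ∈ range (n + 1), g k * a (n - k) = ∑ k ∈ range (n + 1), g k * (S ^ k) a n := by
    refine Finset.sum_congr rfl fun k hk => ?_
    rw [S_pow_apply, if_pos (Nat.lt_succ_iff.1 (Finset.mem_range.1 hk))]
  rw [this]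
  refine hasSum_sum_of_ne_finset_zero fun j hj => ?_
  rw [S_pow_apply, if_neg, mul_zero]
  simpa using hj

theorem exists_pair (φ : ℕ → ℂ)
    (hD : ∀ η > 0, ∃ v w : H, (∀ n, w n = conv v φ n) ∧ ‖v - e0‖ ≤ η) :
    ∃ a b : H,
      (∀ g : H, ∃ p q : H, (∀ n, p n = conv a g n) ∧ (∀ n, q n = conv b g n) ∧
        ‖p‖ ^ 2 + ‖q‖ ^ 2 = ‖g‖ ^ 2) ∧
      (∀ g : H, (∀ j, ⟪g, (S ^ j) a⟫_ℂ = 0) → g = 0) ∧
      0 < (a 0).re ∧ (a 0).im = 0 ∧ (∀ n, conv a φ n = b n) ∧
      (∀ v w : H, (∀ n, w n = conv v φ n) → ∃ g : H, ∀ n, w n = conv b g n) := by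
  obtain ⟨v0, w0, hvw0, hv0⟩ := hD (1 / 2) (by norm_num)
  have hx0 : (WithLp.toLp 2 (v0, w0) : E) ∈ M φ := hvw0
  have h00 : (WithLp.toLp 2 (v0, w0) : E).fst 0 ≠ 0 := by
    intro h
    have h' : v0 0 = 0 := h
    have h1 := lp.norm_apply_le_norm (p := 2) (by norm_num) (v0 - e0) 0
    simp only [lp.coeFn_sub, Pi.sub_apply, h', e0_apply] at h1
    norm_num at h1
    linarith
  obtain ⟨k, hk, hn, ho, hre, him⟩ := exists_wandering φ _ hx0 h00
  have hk0 : k.fst 0 ≠ 0 := by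
    intro h
    rw [h] at hre
    simp at hre
  have hon := orthonormal_wandering hk hn ho
  set V := hon.orthogonalFamily.linearIsometry with hV
  have hVsum : ∀ g : H, HasSum (fun j => g j • SE^[j] k) (V g) := fun g => by
    simpa using hon.orthogonalFamily.hasSum_linearIsometry g
  have hV1 : ∀ (g : H) n, (V g).fst n = conv k.fst g n := fun g n => by
    have h1 := (ev1 n).hasSum (hVsum g)
    simp only [map_smul, ev1_apply, SE_iter_fst, smul_eq_mul] at h1
    exact h1.unique (tsum_S_pow g k.fst n)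
  have hV2 : ∀ (g : H) n, (V g).snd n = conv k.snd g n := fun g n => by
    have h1 := (ev2 n).hasSum (hVsum g)
    simp only [map_smul, ev2_apply, SE_iter_snd, smul_eq_mul] at h1
    exact h1.unique (tsum_S_pow g k.snd n)
  have hVM : ∀ g : H, V g ∈ M φ := fun g =>
    (isClosed_M φ).mem_of_tendsto (hVsum g)
      (Filter.Eventually.of_forall fun s =>
        (M φ).sum_mem fun j _ => (M φ).smul_mem _ (SE_iter_mem hk j))
  have hsurj : ∀ x ∈ M φ, ∃ g : H, V g = x := by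
    intro x hx
    haveI : CompleteSpace (LinearMap.range V.toLinearMap) :=
      V.isometry.isUniformInducing.isComplete_range.completeSpace_coe
    obtain ⟨w, ⟨g, rfl⟩, hw⟩ := Submodule.HasOrthogonalProjection.exists_orthogonal
      (K := LinearMap.range V.toLinearMap) x
    refine ⟨g, ?_⟩
    have h1 : x - V g = 0 := by
      refine wold hk hn ho hk0 _ ((M φ).sub_mem hx (hVM g)) fun j => ?_
      refine Submodule.inner_right_of_mem_orthogonal ?_ hw
      refine ⟨lp.single 2 j 1, ?_⟩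
      simp [hV]
    exact (sub_eq_zero.1 h1).symm
  refine ⟨k.fst, k.snd, fun g => ⟨(V g).fst, (V g).snd, hV1 g, hV2 g, ?_⟩, ?_, hre, him,
    fun n => (hk n).symm, ?_⟩
  · rw [← WithLp.prod_norm_sq_eq_of_L2, V.norm_map]
  · intro g hg
    have h1 : ∀ x ∈ M φ, ⟪g, x.fst⟫_ℂ = 0 := by
      intro x hx
      obtain ⟨c, rfl⟩ := hsurj x hx
      have h2 := ((innerSL ℂ g).comp (WithLp.fstL 2 ℂ H H)).hasSum (hVsum c)
      have h3 : ∀ j, ((innerSL ℂ g).comp (WithLp.fstL 2 ℂ H H)) (c j • SE^[j] k) = 0 := by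
        intro j
        rw [map_smul]
        have : ((innerSL ℂ g).comp (WithLp.fstL 2 ℂ H H)) (SE^[j] k) = ⟪g, (SE^[j] k).fst⟫_ℂ := rfl
        rw [this, SE_iter_fst, hg j, smul_zero]
      simp only [h3] at h2
      exact (hasSum_zero.unique h2).symm
    apply lp.ext
    funext j
    have h2 : ⟪g, (S ^ j) e0⟫_ℂ = starRingEnd ℂ (g j) := by
      have : (S ^ j) e0 = lp.single 2 j 1 := by
        apply lp.ext
        funext n
        rw [S_pow_apply, lp.single_apply, e0_apply]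
        by_cases h : n = j
        · subst h; simp
        · rw [Pi.single_eq_of_ne h]
          split_ifs with h1 h2
          · omega
          · rfl
          · rfl
      rw [this, lp.inner_single_right]
      simp
    have h3 : ∀ η > 0, ‖g j‖ ≤ ‖g‖ * η := by
      intro η hη
      obtain ⟨v, w, hvw, hv⟩ := hD η hη
      have h4 := h1 _ (SE_iter_mem (x := WithLp.toLp 2 (v, w)) hvw j)
      rw [SE_iter_fst] at h4
      have h5 : ⟪g, (S ^ j) v⟫_ℂ = 0 := h4
      have h6 : starRingEnd ℂ (g j) = -⟪g, (S ^ j) (v - e0)⟫_ℂ := by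
        rw [map_sub, inner_sub_right, h5, h2]; ring
      rw [← Complex.norm_conj, h6, norm_neg]
      calc ‖⟪g, (S ^ j) (v - e0)⟫_ℂ‖ ≤ ‖g‖ * ‖(S ^ j) (v - e0)‖ := norm_inner_le_norm _ _
        _ ≤ ‖g‖ * η := by rw [norm_S_pow]; gcongr
    have h4 : ‖g j‖ ≤ 0 := by
      refine le_of_forall_pos_le_add fun ε hε => ?_
      have := h3 (ε / (‖g‖ + 1)) (by positivity)
      have h5 : ‖g‖ * (ε / (‖g‖ + 1)) ≤ ε := by
        rw [mul_div_assoc', div_le_iff₀ (by positivity)]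
        nlinarith [norm_nonneg g]
      linarith
    simpa using h4
  · intro v w hvw
    obtain ⟨g, hg⟩ := hsurj (WithLp.toLp 2 (v, w)) hvw
    refine ⟨g, fun n => ?_⟩
    rw [← hV2 g n, hg]
    rfl

end

end Pool.Agent.MP_05b6ce_an
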